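import Mathlib
import Pool.Agent.Y826.ZG.Defs3
import Pool.Agent.Helper112.TypeI

/-! Project Y826/Z: the von Mangoldt function by Vaughan's identity (helper818). -/

open Finset Filter

namespace Pool.Agent.Y826.ZG.Y818

open Pool.Agent
open Pool.Agent.Y826.Z hiding Cd dl Lc Du SS Soff Hyp Cls
open Pool.Agent.Y826.ZL (Cd dl)
open Pool.Agent.Helper112 (betaV LamII)
open Pool.Agent.Helper112.TI (mu1 l1 mu1_apply l1_apply vaughan af_sub)
open Pool.Agent.Helper112.TII (hyper betaV_abs betaV_zero)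

/-- the coefficient of the second type I part -/
noncomputable def nuL (U d : ℕ) : ℝ := (mu1 U * l1 U) d

theorem nuL_zero (U : ℕ) : nuL U 0 = 0 := by
  unfold nuL; exact ArithmeticFunction.map_zero

theorem mu1_le (U d : ℕ) : |mu1 U d| ≤ 1 := by
  rw [mu1_apply]
  split_ifs
  · exact_mod_cast ArithmeticFunction.abs_moebius_le_one
  · simp

theorem l1_nonneg (U d : ℕ) : 0 ≤ l1 U d := by
  rw [l1_apply]
  split_ifs
  · exact ArithmeticFunction.vonMangoldt_nonneg
  · exact le_rfl

theorem l1_le (U d : ℕ) : l1 U d ≤ ArithmeticFunction.vonMangoldt d := by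
  rw [l1_apply]
  split_ifs
  · exact le_rfl
  · exact ArithmeticFunction.vonMangoldt_nonneg

theorem nuL_abs (U d : ℕ) : |nuL U d| ≤ Real.log d := by
  unfold nuL
  rw [ArithmeticFunction.mul_apply]
  calc |∑ x ∈ d.divisorsAntidiagonal, mu1 U x.1 * l1 U x.2|
      ≤ ∑ x ∈ d.divisorsAntidiagonal, ArithmeticFunction.vonMangoldt x.2 := by
        refine (abs_sum_le_sum_abs _ _).trans (sum_le_sum fun x _ => ?_)
        rw [abs_mul, abs_of_nonneg (l1_nonneg U x.2)]
        calc |mu1 U x.1| * l1 U x.2 ≤ 1 * l1 U x.2 :=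
              mul_le_mul_of_nonneg_right (mu1_le U x.1) (l1_nonneg U x.2)
          _ ≤ _ := by rw [one_mul]; exact l1_le U x.2
    _ = Real.log d := by
        rw [Nat.sum_divisorsAntidiagonal' (f := fun _ b => ArithmeticFunction.vonMangoldt b)]
        exact ArithmeticFunction.vonMangoldt_sum

theorem nuL_big (U d : ℕ) (hd : U * U < d) : nuL U d = 0 := by
  unfold nuL
  rw [ArithmeticFunction.mul_apply]
  apply sum_eq_zero
  intro x hx
  rw [Nat.mem_divisorsAntidiagonal] at hx
  rw [mu1_apply, l1_apply]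
  by_cases h1 : x.1 ≤ U
  · by_cases h2 : x.2 ≤ U
    · exfalso
      have := Nat.mul_le_mul h1 h2
      omega
    · rw [if_neg h2, mul_zero]
  · rw [if_neg h1, zero_mul]

/-- sums over factorisations as sums over a box -/
theorem box (T : ℕ) (g : ℕ → ℕ → ℝ) (hz : ∀ b c, T < b * c → g b c = 0) :
    ∑ n ∈ Icc 1 T, ∑ i ∈ n.divisorsAntidiagonal, g i.1 i.2 =
      ∑ b ∈ Icc 1 T, ∑ c ∈ Icc 1 T, g b c := by
  rw [hyper, sum_comm]
  apply sum_congr rfl
  intro c hc
  rw [mem_Icc] at hc
  apply sum_subset (Icc_subset_Icc_right (Nat.div_le_self _ _))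
  intro b hb hb'
  rw [mem_Icc] at hb hb'
  apply hz
  have h1 : T / c < b := by
    by_contra h
    exact hb' ⟨hb.1, by omega⟩
  exact (Nat.div_lt_iff_lt_mul (by omega)).1 h1

/-- Vaughan's identity for a weight supported on `(U ^ 3, T]` -/
theorem vau_id (w : ℕ → ℝ) (T U : ℕ) (hUT : U ≤ T) (h1 : ∀ n, n ≤ U * U * U → w n = 0)
    (h2 : ∀ n, T < n → w n = 0) :
    ∑ n ∈ Icc 1 T, ArithmeticFunction.vonMangoldt n * w n =
      ∑ m ∈ Ioc U T, ∑ n ∈ Ioc U T, betaV U m * ArithmeticFunction.vonMangoldt n * w (m * n) +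
      ∑ d ∈ Icc 1 U, mu1 U d * ∑ l ∈ Icc 1 T, Real.log l * w (d * l) -
      ∑ d ∈ Icc 1 U, nuL U d * ∑ l ∈ Icc 1 T, w (d * l) -
      ∑ m ∈ Ioc U T, ∑ n ∈ Ioc U T, nuL U m * w (m * n) := by
  have hsub1 : Ioc U T ⊆ Icc 1 T := by
    intro x hx
    rw [mem_Ioc] at hx
    rw [mem_Icc]
    omega
  have hsub2 : Icc 1 U ⊆ Icc 1 T := Icc_subset_Icc_right hUT
  -- the bilinear part
  have ea : ∑ n ∈ Icc 1 T, LamII U U n * w n =
      ∑ m ∈ Ioc U T, ∑ n ∈ Ioc U T, betaV U m * ArithmeticFunction.vonMangoldt n * w (m * n) := by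
    have e1 : ∑ n ∈ Icc 1 T, LamII U U n * w n =
        ∑ n ∈ Icc 1 T, ∑ i ∈ n.divisorsAntidiagonal,
          betaV U i.1 * (if U < i.2 then ArithmeticFunction.vonMangoldt i.2 else 0) * w (i.1 * i.2) := by
      apply sum_congr rfl
      intro n _
      unfold LamII
      rw [sum_mul]
      apply sum_congr rfl
      intro i hi
      rw [(Nat.mem_divisorsAntidiagonal.1 hi).1]
    rw [e1, box T (fun b c => betaV U b * (if U < c then ArithmeticFunction.vonMangoldt c else 0) *
      w (b * c)) (fun b c h => by rw [h2 _ h, mul_zero])]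
    symm
    have e2 : ∀ m ∈ Ioc U T, ∑ n ∈ Ioc U T, betaV U m * ArithmeticFunction.vonMangoldt n * w (m * n) =
        ∑ c ∈ Icc 1 T, betaV U m * (if U < c then ArithmeticFunction.vonMangoldt c else 0) *
          w (m * c) := by
      intro m _
      rw [← sum_subset hsub1]
      · apply sum_congr rfl
        intro c hc
        rw [mem_Ioc] at hc
        rw [if_pos hc.1]
      · intro c hc hc'
        rw [mem_Icc] at hc
        rw [mem_Ioc] at hc'
        rw [if_neg (by omega)]
        ring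
    rw [sum_congr rfl e2]
    apply sum_subset hsub1
    intro m hm hm'
    rw [mem_Icc] at hm
    rw [mem_Ioc] at hm'
    apply sum_eq_zero
    intro c _
    rw [betaV_zero U m (by omega)]
    ring
  -- the part `l1`
  have eb : ∑ n ∈ Icc 1 T, l1 U n * w n = 0 := by
    apply sum_eq_zero
    intro n hn
    rw [mem_Icc] at hn
    rw [l1_apply]
    by_cases h : n ≤ U
    · rw [h1 n, mul_zero]
      have hU : 1 ≤ U := hn.1.trans h
      calc n ≤ U := h
        _ = 1 * 1 * U := by ring
        _ ≤ U * U * U := Nat.mul_le_mul (Nat.mul_le_mul hU hU) le_rfl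
    · rw [if_neg h, zero_mul]
  -- the part `log * mu1`
  have ec : ∑ n ∈ Icc 1 T, (ArithmeticFunction.log * mu1 U) n * w n =
      ∑ d ∈ Icc 1 U, mu1 U d * ∑ l ∈ Icc 1 T, Real.log l * w (d * l) := by
    have e1 : ∑ n ∈ Icc 1 T, (ArithmeticFunction.log * mu1 U) n * w n =
        ∑ n ∈ Icc 1 T, ∑ i ∈ n.divisorsAntidiagonal, Real.log i.1 * mu1 U i.2 * w (i.1 * i.2) := by
      apply sum_congr rfl
      intro n _
      rw [ArithmeticFunction.mul_apply, sum_mul]
      apply sum_congr rfl
      intro i hi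
      rw [(Nat.mem_divisorsAntidiagonal.1 hi).1, ArithmeticFunction.log_apply]
    rw [e1, box T (fun b c => Real.log b * mu1 U c * w (b * c)) (fun b c h => by rw [h2 _ h, mul_zero]),
      sum_comm]
    symm
    have e2 : ∀ d ∈ Icc 1 U, mu1 U d * ∑ l ∈ Icc 1 T, Real.log l * w (d * l) =
        ∑ b ∈ Icc 1 T, Real.log b * mu1 U d * w (b * d) := by
      intro d _
      rw [mul_sum]
      apply sum_congr rfl
      intro l _
      rw [mul_comm l d]
      ring
    rw [sum_congr rfl e2]
    apply sum_subset hsub2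
    intro d hd hd'
    rw [mem_Icc] at hd hd'
    apply sum_eq_zero
    intro l _
    rw [mu1_apply, if_neg (by omega)]
    ring
  -- the part `ζ * nu`
  have ed : ∑ n ∈ Icc 1 T, (((ArithmeticFunction.zeta : ArithmeticFunction ℕ) :
        ArithmeticFunction ℝ) * (mu1 U * l1 U)) n * w n =
      ∑ d ∈ Icc 1 U, nuL U d * ∑ l ∈ Icc 1 T, w (d * l) +
      ∑ m ∈ Ioc U T, ∑ n ∈ Ioc U T, nuL U m * w (m * n) := by
    have e1 : ∑ n ∈ Icc 1 T, (((ArithmeticFunction.zeta : ArithmeticFunction ℕ) :
        ArithmeticFunction ℝ) * (mu1 U * l1 U)) n * w n =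
        ∑ n ∈ Icc 1 T, ∑ i ∈ n.divisorsAntidiagonal, nuL U i.2 * w (i.1 * i.2) := by
      apply sum_congr rfl
      intro n _
      rw [ArithmeticFunction.mul_apply, sum_mul]
      apply sum_congr rfl
      intro i hi
      have hi1 : i.1 ≠ 0 := by
        obtain ⟨h, h'⟩ := Nat.mem_divisorsAntidiagonal.1 hi
        intro h0
        rw [h0, zero_mul] at h
        exact h' h.symm
      rw [(Nat.mem_divisorsAntidiagonal.1 hi).1, ArithmeticFunction.natCoe_apply,
        ArithmeticFunction.zeta_apply_ne hi1]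
      unfold nuL
      ring
    rw [e1, box T (fun b c => nuL U c * w (b * c)) (fun b c h => by rw [h2 _ h, mul_zero]),
      sum_comm]
    have e3 : Icc 1 T = Icc 1 U ∪ Ioc U T := by
      ext x
      simp only [mem_Icc, mem_union, mem_Ioc]
      omega
    have e4 : Disjoint (Icc 1 U) (Ioc U T) := by
      rw [disjoint_left]
      intro x hx hx'
      rw [mem_Icc] at hx
      rw [mem_Ioc] at hx'
      omega
    conv_lhs => rw [e3, sum_union e4]
    rw [← e3]
    congr 1
    · apply sum_congr rfl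
      intro d _
      rw [mul_sum]
      apply sum_congr rfl
      intro l _
      rw [mul_comm l d]
    · apply sum_congr rfl
      intro d hd
      rw [mem_Ioc] at hd
      rw [← sum_subset hsub1]
      · apply sum_congr rfl
        intro l _
        rw [mul_comm l d]
      · intro l hl hl'
        rw [mem_Icc] at hl
        rw [mem_Ioc] at hl'
        by_cases h : U * U < d
        · rw [nuL_big U d h, zero_mul]
        · rw [h1 (l * d), mul_zero]
          have hlU : l ≤ U := by omega
          calc l * d ≤ U * (U * U) := Nat.mul_le_mul hlU (by omega)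
            _ = U * U * U := by ring
  have hV : ∀ n ∈ Icc 1 T, ArithmeticFunction.vonMangoldt n * w n =
      LamII U U n * w n + l1 U n * w n + (ArithmeticFunction.log * mu1 U) n * w n -
      (((ArithmeticFunction.zeta : ArithmeticFunction ℕ) :
        ArithmeticFunction ℝ) * (mu1 U * l1 U)) n * w n := by
    intro n _
    have := vaughan U U n
    have h3 : ArithmeticFunction.vonMangoldt n = LamII U U n + l1 U n +
      (ArithmeticFunction.log * mu1 U) n -
      (((ArithmeticFunction.zeta : ArithmeticFunction ℕ) :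
        ArithmeticFunction ℝ) * (mu1 U * l1 U)) n := by linarith
    rw [h3]
    ring
  rw [sum_congr rfl hV, sum_sub_distrib, sum_add_distrib, sum_add_distrib, ea, eb, ec, ed]
  ring

theorem Phi_low (n : ℕ) (X : ℝ) (hX : 0 < X) (hn : (n : ℝ) ≤ X) : H378R2.Phi (n / X) = 0 := by
  unfold H378R2.Phi
  apply max_eq_left
  have h1 : Real.log ((n : ℝ) / X) ≤ 0 := by
    apply Real.log_nonpos (by positivity)
    rw [div_le_one hX]; exact hn
  rw [abs_of_nonpos (by linarith)]
  linarith

theorem Phi_high (n : ℕ) (X : ℝ) (hX : 0 < X) (hn : 3 * X ≤ n) : H378R2.Phi (n / X) = 0 := by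
  unfold H378R2.Phi
  apply max_eq_left
  have h1 : 1 ≤ Real.log ((n : ℝ) / X) := by
    rw [Real.le_log_iff_exp_le (by
      apply div_pos _ hX
      linarith)]
    rw [le_div_iff₀ hX]
    have := Real.exp_one_lt_d9
    nlinarith
  rw [abs_of_nonneg (by linarith)]
  linarith

theorem tau_ge_one {n : ℕ} (hn : n ≠ 0) : 1 ≤ tau n := by
  unfold tau
  have : 0 < n.divisors.card := Finset.card_pos.2 ⟨1, Nat.one_mem_divisors.2 hn⟩
  exact_mod_cast this

theorem tau_ge_two {n : ℕ} (hn : 2 ≤ n) : 2 ≤ tau n := by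
  unfold tau
  have h : ({1, n} : Finset ℕ) ⊆ n.divisors := by
    intro x hx
    rw [mem_insert, mem_singleton] at hx
    rw [Nat.mem_divisors]
    rcases hx with rfl | rfl
    · exact ⟨one_dvd _, by omega⟩
    · exact ⟨dvd_rfl, by omega⟩
  have h2 := card_le_card h
  rw [card_pair (by omega)] at h2
  exact_mod_cast h2

theorem tau_nonneg (n : ℕ) : 0 ≤ tau n := by unfold tau; positivity

/-- S_LAM from S_BX and S_TI -/
theorem lam (hBX : S_BX) (hTI : S_TI) : S_LAM := by
  intro K h W b hyp δ hδ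
  obtain ⟨ε, hε, hA⟩ := hBX K h W b hyp δ hδ
  refine ⟨ε, hε, fun A => ?_⟩
  obtain ⟨B0, hB0⟩ := hA (A + 1)
  refine ⟨B0, fun B hB => ?_⟩
  have hlog1 : ∀ᶠ X : ℝ in atTop, 4 ≤ Real.log X := Real.tendsto_log_atTop.eventually_ge_atTop 4
  have hlogA : ∀ᶠ X : ℝ in atTop, 4 * X ^ (99 / 100 : ℝ) * (Real.log X) ^ A ≤ X := by
    have h1 := (isLittleO_log_rpow_rpow_atTop (A : ℝ) (show (0 : ℝ) < 1 / 100 by norm_num)).bound
      (show (0 : ℝ) < 1 / 4 by norm_num)
    filter_upwards [h1, eventually_ge_atTop 1, Real.tendsto_log_atTop.eventually_ge_atTop 0] with X hX1 hX2 hX3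
    rw [Real.norm_of_nonneg (by positivity), Real.norm_of_nonneg (by positivity), Real.rpow_natCast] at hX1
    have h2 : X ^ (99 / 100 : ℝ) * X ^ (1 / 100 : ℝ) = X := by
      rw [← Real.rpow_add (by linarith)]
      norm_num
    have h3 : 0 ≤ X ^ (99 / 100 : ℝ) := by positivity
    calc 4 * X ^ (99 / 100 : ℝ) * (Real.log X) ^ A
        ≤ 4 * X ^ (99 / 100 : ℝ) * (1 / 4 * X ^ (1 / 100 : ℝ)) := by gcongr
      _ = X ^ (99 / 100 : ℝ) * X ^ (1 / 100 : ℝ) := by ring
      _ = X := h2
  have hpow : ∀ᶠ X : ℝ in atTop, (2 : ℝ) ^ K ≤ X ^ (1 / 100 : ℝ) :=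
    (tendsto_rpow_atTop (show (0 : ℝ) < 1 / 100 by norm_num)).eventually_ge_atTop _
  filter_upwards [hB0 B hB, hTI K h W b hyp B, hlog1, hlogA, hpow, eventually_ge_atTop 3] with
    X hbx hti hl4 hfin hK2 hX3
  intro Q hQ hprod hG S hS c hc
  have hX0 : 0 < X := by linarith
  set U := ⌊X ^ (1 / 3 : ℝ)⌋₊ with hU
  set T := ⌊3 * X⌋₊ with hT
  have hUr : (U : ℝ) ≤ X ^ (1 / 3 : ℝ) := Nat.floor_le (by positivity)
  have hU3 : ((U * U * U : ℕ) : ℝ) ≤ X := by
    push_cast
    calc (U : ℝ) * U * U ≤ X ^ (1 / 3 : ℝ) * X ^ (1 / 3 : ℝ) * X ^ (1 / 3 : ℝ) := by gcongr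
      _ = X := by
        rw [← Real.rpow_add hX0, ← Real.rpow_add hX0]
        norm_num
  have hUX : (U : ℝ) ≤ X := by
    refine hUr.trans ?_
    calc X ^ (1 / 3 : ℝ) ≤ X ^ (1 : ℝ) := Real.rpow_le_rpow_of_exponent_le (by linarith) (by norm_num)
      _ = X := Real.rpow_one X
  have hU2 : ((U * U : ℕ) : ℝ) ≤ X := by
    push_cast
    calc (U : ℝ) * U ≤ X ^ (1 / 3 : ℝ) * X ^ (1 / 3 : ℝ) := by gcongr
      _ = X ^ (2 / 3 : ℝ) := by
        rw [← Real.rpow_add hX0]
        norm_num
      _ ≤ X ^ (1 : ℝ) := Real.rpow_le_rpow_of_exponent_le (by linarith) (by norm_num)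
      _ = X := Real.rpow_one X
  have hUT : U ≤ T := by
    apply Nat.floor_mono
    calc X ^ (1 / 3 : ℝ) ≤ X ^ (1 : ℝ) := Real.rpow_le_rpow_of_exponent_le (by linarith) (by norm_num)
      _ = X := Real.rpow_one X
      _ ≤ 3 * X := by linarith
  have hlogT : ∀ n : ℕ, n ≤ T → Real.log n ≤ 2 * Real.log X := by
    intro n hn
    rcases Nat.eq_zero_or_pos n with h0 | h0
    · rw [h0]; simp; linarith
    · have h1 : (n : ℝ) ≤ 3 * X := (Nat.cast_le.2 hn).trans (Nat.floor_le (by positivity))
      calc Real.log n ≤ Real.log (3 * X) := Real.log_le_log (by exact_mod_cast h0) h1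
        _ ≤ Real.log (X * X) := Real.log_le_log (by positivity) (by nlinarith)
        _ = 2 * Real.log X := by rw [Real.log_mul (by positivity) (by positivity)]; ring
  -- coefficients
  have hcoef1 : ∀ m, |betaV U m| ≤ tau m * Real.log X := by
    intro m
    refine (betaV_abs U m).trans ?_
    have : (m.divisors.card : ℝ) = tau m := rfl
    rw [this]
    nlinarith [tau_nonneg m]
  have hcoef2 : ∀ n, |(if n ≤ T then ArithmeticFunction.vonMangoldt n else 0)| ≤ tau n * Real.log X := by
    intro n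
    split_ifs with hn
    · rw [abs_of_nonneg ArithmeticFunction.vonMangoldt_nonneg]
      rcases Nat.lt_or_ge n 2 with h2 | h2
      · have : ArithmeticFunction.vonMangoldt n = 0 := by
          interval_cases n
          · simp
          · exact ArithmeticFunction.vonMangoldt_apply_one
        rw [this]
        have := tau_nonneg n
        positivity
      · refine ArithmeticFunction.vonMangoldt_le_log.trans ((hlogT n hn).trans ?_)
        exact mul_le_mul_of_nonneg_right (tau_ge_two h2) (by linarith)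
    · rw [abs_zero]
      have := tau_nonneg n
      positivity
  have hcoef3 : ∀ d, |mu1 U d| ≤ tau d * Real.log X := by
    intro d
    rcases Nat.eq_zero_or_pos d with h0 | h0
    · rw [h0, ArithmeticFunction.map_zero, abs_zero]
      have := tau_nonneg 0
      positivity
    · have h1 := tau_ge_one (n := d) (by omega)
      have h2 := mu1_le U d
      nlinarith
  have hcoef4 : ∀ d, |nuL U d| ≤ tau d * Real.log X := by
    intro d
    rcases Nat.eq_zero_or_pos d with h0 | h0
    · rw [h0, nuL_zero, abs_zero]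
      have := tau_nonneg 0
      positivity
    · by_cases h1 : U * U < d
      · rw [nuL_big U d h1, abs_zero]
        have := tau_nonneg d
        positivity
      · refine (nuL_abs U d).trans ?_
        have h2 : (d : ℝ) ≤ X := (Nat.cast_le.2 (by omega : d ≤ U * U)).trans hU2
        have h3 : Real.log d ≤ Real.log X := Real.log_le_log (by exact_mod_cast h0) h2
        have h4 := tau_ge_one (n := d) (by omega)
        nlinarith
  have hcoef5 : ∀ n : ℕ, |(if n = 0 then (0 : ℝ) else 1)| ≤ tau n * Real.log X := by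
    intro n
    split_ifs with hn
    · rw [abs_zero]
      have := tau_nonneg n
      positivity
    · rw [abs_one]
      have h4 := tau_ge_one hn
      nlinarith
  -- sizes of the moduli
  have hSq : ∀ q ∈ S, Squarefree (rd W * Pr q) ∧ (Pr q : ℝ) ≤ X ^ (14 / 25 : ℝ) := by
    intro q hq
    obtain ⟨h1, h2, _⟩ := hS q hq
    refine ⟨h1, ?_⟩
    have h3 : (Pr q : ℝ) ≤ ∏ j, (2 * Q j) := by
      unfold Pr
      push_cast
      exact prod_le_prod (fun j _ => by positivity) (fun j _ => (h2 j).2)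
    rw [prod_mul_distrib, prod_const, card_univ, Fintype.card_fin] at h3
    calc (Pr q : ℝ) ≤ 2 ^ K * ∏ j, Q j := h3
      _ ≤ X ^ (1 / 100 : ℝ) * X ^ (11 / 20 : ℝ) := by
        apply mul_le_mul hK2 hprod _ (by positivity)
        exact prod_nonneg (fun j _ => (hQ j).le)
      _ = X ^ (14 / 25 : ℝ) := by
        rw [← Real.rpow_add hX0]
        norm_num
  -- the four parts
  have b1 := hbx Q hQ hG S hS c hc (betaV U) (fun n => if n ≤ T then ArithmeticFunction.vonMangoldt n else 0)
    hcoef1 hcoef2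
  have b4 := hbx Q hQ hG S hS c hc (nuL U) (fun n => if n = 0 then 0 else 1) hcoef4 hcoef5
  have hUD : (U : ℝ) ≤ 4 * X ^ (1 / 3 : ℝ) := by
    have : 0 ≤ X ^ (1 / 3 : ℝ) := by positivity
    linarith
  have b2 := hti S hSq c hc (fun d => mu1 U d) hcoef3 (fun l => Real.log l) (Or.inr fun _ => rfl) U hUD
  have b3 := hti S hSq c hc (nuL U) hcoef4 (fun _ => 1) (Or.inl fun _ => rfl) U hUD
  have key : ∑ q ∈ S, c q * ∑ n ∈ Icc 1 T, H378R2.Phi (n / X) * ArithmeticFunction.vonMangoldt n *
      dl h W b (D0 X B) q n =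
      ∑ q ∈ S, c q * ∑ m ∈ Ioc U T, ∑ n ∈ Ioc U T,
        betaV U m * (if n ≤ T then ArithmeticFunction.vonMangoldt n else 0) *
          H378R2.Phi (((m * n : ℕ) : ℝ) / X) * dl h W b (D0 X B) q (m * n) +
      ∑ q ∈ S, c q * ∑ d ∈ Icc 1 U, mu1 U d * ∑ l ∈ Icc 1 T,
        Real.log l * H378R2.Phi (((d * l : ℕ) : ℝ) / X) * dl h W b (D0 X B) q (d * l) -
      ∑ q ∈ S, c q * ∑ d ∈ Icc 1 U, nuL U d * ∑ l ∈ Icc 1 T,
        1 * H378R2.Phi (((d * l : ℕ) : ℝ) / X) * dl h W b (D0 X B) q (d * l) -
      ∑ q ∈ S, c q * ∑ m ∈ Ioc U T, ∑ n ∈ Ioc U T,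
        nuL U m * (if n = 0 then 0 else 1) *
          H378R2.Phi (((m * n : ℕ) : ℝ) / X) * dl h W b (D0 X B) q (m * n) := by
    rw [← sum_add_distrib, ← sum_sub_distrib, ← sum_sub_distrib]
    apply sum_congr rfl
    intro q _
    rw [← mul_add, ← mul_sub, ← mul_sub]
    congr 1
    have hv := vau_id (fun n => H378R2.Phi (n / X) * dl h W b (D0 X B) q n) T U hUT
      (fun n hn => by
        rw [Phi_low n X hX0 ((Nat.cast_le.2 hn).trans hU3), zero_mul])
      (fun n hn => by
        rw [Phi_high n X hX0 ((Nat.lt_floor_add_one (3 * X)).le.trans (by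
          have : T + 1 ≤ n := hn
          exact_mod_cast this)), zero_mul])
    have hL : ∑ n ∈ Icc 1 T, H378R2.Phi (n / X) * ArithmeticFunction.vonMangoldt n *
        dl h W b (D0 X B) q n = ∑ n ∈ Icc 1 T, ArithmeticFunction.vonMangoldt n *
        (H378R2.Phi (n / X) * dl h W b (D0 X B) q n) := by
      apply sum_congr rfl
      intro n _
      ring
    rw [hL, hv]
    congr 1
    · congr 1
      · congr 1
        · apply sum_congr rfl
          intro m _
          apply sum_congr rfl
          intro n hn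
          rw [mem_Ioc] at hn
          rw [if_pos hn.2]
          ring
        · apply sum_congr rfl
          intro d _
          congr 1
          apply sum_congr rfl
          intro l _
          ring
      · apply sum_congr rfl
        intro d _
        congr 1
        apply sum_congr rfl
        intro l _
        ring
    · apply sum_congr rfl
      intro m _
      apply sum_congr rfl
      intro n hn
      rw [mem_Ioc] at hn
      rw [if_neg (by omega)]
      ring
  rw [key]
  have hfin2 : 2 * (X / (Real.log X) ^ (A + 1)) + 2 * X ^ (99 / 100 : ℝ) ≤ X / (Real.log X) ^ A := by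
    have hLp : 0 < Real.log X := by linarith
    have hLA : 0 < (Real.log X) ^ A := by positivity
    have e1 : 2 * (X / (Real.log X) ^ (A + 1)) ≤ 1 / 2 * (X / (Real.log X) ^ A) := by
      rw [pow_succ, ← div_div]
      have h5 : 0 ≤ X / (Real.log X) ^ A := by positivity
      have h6 : X / (Real.log X) ^ A / Real.log X ≤ X / (Real.log X) ^ A / 4 := by gcongr
      linarith
    have e2 : 2 * X ^ (99 / 100 : ℝ) ≤ 1 / 2 * (X / (Real.log X) ^ A) := by
      rw [show (1 : ℝ) / 2 * (X / (Real.log X) ^ A) = (X / 2) / (Real.log X) ^ A by ring,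
        le_div_iff₀ hLA]
      linarith
    linarith
  calc |_| ≤ X / (Real.log X) ^ (A + 1) + X ^ (99 / 100 : ℝ) + X ^ (99 / 100 : ℝ) +
        X / (Real.log X) ^ (A + 1) := by
        refine (abs_sub _ _).trans (add_le_add ((abs_sub _ _).trans (add_le_add
          ((abs_add_le _ _).trans (add_le_add b1 b2)) b3)) b4)
    _ ≤ X / (Real.log X) ^ A := by linarith

end Pool.Agent.Y826.ZG.Y818

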